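import Pool.Agent.H635R3.RR

set_option autoImplicit false

open Polynomial Finset

namespace Pool.Agent.H635R3.Comb

open Pool.Agent.H635R3.RR

/-! ### polynomial side -/

noncomputable def Phi (n j : ℕ) : ℝ[X] := (D ^ j) (((D + 1) ^ (n - j)) X)

lemma D_X : D (X : ℝ[X]) = X * (X - 1) := by
  rw [D_apply, derivative_X, mul_one]

lemma D_mul (f g : ℝ[X]) : D (f * g) = D f * g + f * D g := by
  simp only [D_apply, derivative_mul]; ring

lemma D_sub_one : D (X - 1 : ℝ[X]) = X * (X - 1) := by
  rw [D_apply, derivative_sub, derivative_X, derivative_one, sub_zero, mul_one]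

lemma P1 (n : ℕ) : (X - 1) * (((D + 1) ^ (n + 1)) (X : ℝ[X])) = X * ((D ^ (n + 1)) X) := by
  induction n with
  | zero =>
    simp only [zero_add, pow_one, LinearMap.add_apply, Module.End.one_apply, D_X]
    ring
  | succ n ih =>
    rw [pow_succ' (D + 1), pow_succ' D, Module.End.mul_apply, Module.End.mul_apply]
    set g := ((D + 1) ^ (n + 1)) (X : ℝ[X])
    set f := (D ^ (n + 1)) (X : ℝ[X])
    have h := congrArg D ih
    rw [D_mul, D_mul, D_X, D_sub_one] at h
    rw [LinearMap.add_apply, Module.End.one_apply]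
    linear_combination h - (X - 1) * ih - (X * g - X * g) + (X - 1) * ih - (X - 1) * ih

lemma Phi_diff (n j : ℕ) (hj : j ≤ n) : Phi (n + 1) j - Phi (n + 1) (j + 1) = Phi n j := by
  unfold Phi
  have h1 : n + 1 - j = (n - j) + 1 := by omega
  have h2 : n + 1 - (j + 1) = n - j := by omega
  rw [h1, h2, pow_succ' (D + 1), Module.End.mul_apply, LinearMap.add_apply, Module.End.one_apply,
    map_add, pow_succ D j, Module.End.mul_apply]
  ring

lemma Phi_sum (n j : ℕ) (hj : j ≤ n + 1) :
    ∑ i ∈ range j, Phi n i = Phi (n + 1) 0 - Phi (n + 1) j := by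
  induction j with
  | zero => simp
  | succ j ih =>
    rw [sum_range_succ, ih (by omega), ← Phi_diff n j (by omega)]
    ring

lemma Phi_zero (n : ℕ) : Phi n 0 = ((D + 1) ^ n) X := by
  simp [Phi]

lemma Phi_self (n : ℕ) : Phi n n = (D ^ n) X := by
  simp [Phi]

lemma Phi_base (n : ℕ) : X * ∑ i ∈ range (n + 1), Phi n i = Phi (n + 1) 0 := by
  rw [Phi_sum n (n + 1) le_rfl, Phi_self, Phi_zero]
  linear_combination P1 n

lemma Phi_rec (n j : ℕ) (hj : j ≤ n + 1) :
    ∑ i ∈ range (n + 1), (if i < j then (X - 1 : ℝ[X]) else X) * Phi n i = Phi (n + 1) j := by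
  have h1 : ∀ i ∈ range (n + 1), (if i < j then (X - 1 : ℝ[X]) else X) * Phi n i =
      X * Phi n i - (if i < j then Phi n i else 0) := by
    intro i _
    split_ifs <;> ring
  rw [sum_congr rfl h1, sum_sub_distrib, ← mul_sum, Phi_base, ← sum_filter]
  have h2 : (range (n + 1)).filter (fun i => i < j) = range j := by
    ext i; simp; omega
  rw [h2, Phi_sum n j hj]
  ring

/-! ### scalar recursion -/

/-- unsigned refined descent sums -/
noncomputable def u (t : ℂ) : ℕ → ℕ → ℂ
  | 0, _ => 1
  | n + 1, j => ∑ i ∈ range (n + 1), (if i < j then t else 1) * u t n i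

/-- signed refined descent sums -/
noncomputable def v (t : ℂ) : ℕ → ℕ → ℂ
  | 0, _ => 1
  | n + 1, j => (-1) ^ j * ∑ i ∈ range (n + 1), (if i < j then t else 1) * v t n i

lemma u_succ (t : ℂ) (n j : ℕ) :
    u t (n + 1) j = ∑ i ∈ range (n + 1), (if i < j then t else 1) * u t n i := rfl

lemma v_succ (t : ℂ) (n j : ℕ) :
    v t (n + 1) j = (-1) ^ j * ∑ i ∈ range (n + 1), (if i < j then t else 1) * v t n i := rfl

lemma u_eq (t y : ℂ) (hy : (1 - t) * y = 1) (n : ℕ) : ∀ j ≤ n,
    u t n j = (1 - t) ^ (n + 1) * aeval y (Phi n j) := by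
  induction n with
  | zero =>
    intro j hj
    obtain rfl : j = 0 := by omega
    simp [u, Phi, hy]
  | succ n ih =>
    intro j hj
    rw [u_succ, ← Phi_rec n j hj, map_sum, mul_sum]
    apply sum_congr rfl
    intro i hi
    rw [ih i (by simpa [Nat.lt_succ_iff] using hi), map_mul]
    split_ifs
    · rw [map_sub, aeval_X, map_one]
      linear_combination (-(1 - t) ^ (n + 1) * aeval y (Phi n i)) * hy
    · rw [aeval_X]
      linear_combination (-(1 - t) ^ (n + 1) * aeval y (Phi n i)) * hy

/-- the Eulerian sum -/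
lemma tA_eq (t y : ℂ) (hy : (1 - t) * y = 1) (n : ℕ) :
    t * u t (n + 1) 0 = (1 - t) ^ (n + 2) * aeval y ((D ^ (n + 1)) (X : ℝ[X])) := by
  rw [u_eq t y hy (n + 1) 0 (by omega), Phi_zero]
  have h := congrArg (aeval y) (P1 n)
  rw [map_mul, map_mul, map_sub, aeval_X, map_one] at h
  set G := (aeval y) (((D + 1) ^ (n + 1)) (X : ℝ[X]))
  set F := (aeval y) ((D ^ (n + 1)) (X : ℝ[X]))
  linear_combination (1 - t) ^ (n + 2) * (1 - t) * h +
    (1 - t) ^ (n + 2) * (F - G) * hy

lemma u_last (t : ℂ) (n : ℕ) : u t (n + 1) (n + 1) = t * u t (n + 1) 0 := by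
  rw [u_succ, u_succ, mul_sum]
  apply sum_congr rfl
  intro i hi
  have : i < n + 1 := by simpa using hi
  simp [this]

lemma S1 (t : ℂ) (f : ℕ → ℂ) (i N : ℕ) :
    ∑ l ∈ range N, (if l < i then t else 1) * (f l - f (l + 1)) =
      if N ≤ i then t * (f 0 - f N) else t * (f 0 - f i) + (f i - f N) := by
  induction N with
  | zero => simp
  | succ N ih =>
    rw [sum_range_succ, ih]
    by_cases h1 : N + 1 ≤ i
    · rw [if_pos (by omega), if_pos (by omega), if_pos h1]; ring
    · rw [if_neg h1]
      by_cases h2 : N ≤ i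
      · obtain rfl : N = i := by omega
        rw [if_pos le_rfl, if_neg (lt_irrefl _)]; ring
      · rw [if_neg h2, if_neg (by omega)]; ring

lemma S2 (t : ℂ) (f : ℕ → ℂ) (i N : ℕ) :
    ∑ l ∈ range N, ((if l < i + 1 then t else 1) * f l - (if l < i then t else 1) * f (l + 1)) =
      if N ≤ i then t * (f 0 - f N) else t * f 0 - f N := by
  induction N with
  | zero => simp
  | succ N ih =>
    rw [sum_range_succ, ih]
    by_cases h1 : N + 1 ≤ i
    · rw [if_pos (by omega), if_pos (by omega), if_pos (by omega), if_pos h1]; ring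
    · rw [if_neg h1]
      by_cases h2 : N ≤ i
      · obtain rfl : N = i := by omega
        rw [if_pos le_rfl, if_pos (by omega), if_neg (lt_irrefl _)]; ring
      · rw [if_neg h2, if_neg (by omega), if_neg (by omega)]; ring

lemma sum_pairs (f : ℕ → ℂ) (k : ℕ) :
    ∑ l ∈ range (2 * k), f l = ∑ i ∈ range k, (f (2 * i) + f (2 * i + 1)) := by
  induction k with
  | zero => simp
  | succ k ih =>
    rw [show 2 * (k + 1) = 2 * k + 1 + 1 by ring, sum_range_succ, sum_range_succ, ih,
      sum_range_succ]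
    ring

/-- closed form for the signed sums -/
lemma v_closed (t : ℂ) (r : ℕ) :
    (∀ i, i ≤ r → v t (2 * r) (2 * i) = (1 - t) ^ r * u t r i) ∧
    (∀ i, i < r → v t (2 * r) (2 * i + 1) = 0) := by
  induction r with
  | zero =>
    refine ⟨fun i hi => ?_, fun i hi => by omega⟩
    simp [v, u]
  | succ r ih =>
    obtain ⟨ih1, ih2⟩ := ih
    -- the intermediate level 2r+1
    have hsum : ∀ j, ∑ l ∈ range (2 * r + 1), (if l < j then t else 1) * v t (2 * r) l =
        ∑ i ∈ range (r + 1), (if 2 * i < j then t else 1) * ((1 - t) ^ r * u t r i) := by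
      intro j
      rw [sum_range_succ, sum_pairs, sum_range_succ, ih1 r le_rfl]
      congr 1
      apply sum_congr rfl
      intro i hi
      have hi' : i < r := by simpa using hi
      rw [ih1 i hi'.le, ih2 i hi']
      ring
    have e1 : ∀ i, v t (2 * r + 1) (2 * i) = (1 - t) ^ r * u t (r + 1) i := by
      intro i
      rw [v_succ, hsum, show ((-1 : ℂ)) ^ (2 * i) = 1 by rw [pow_mul]; simp, one_mul,
        u_succ, mul_sum]
      apply sum_congr rfl
      intro l _
      have : (2 * l < 2 * i) ↔ l < i := by omega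
      simp only [this]
      ring
    have e2 : ∀ i, v t (2 * r + 1) (2 * i + 1) = -((1 - t) ^ r * u t (r + 1) (i + 1)) := by
      intro i
      rw [v_succ, hsum, show ((-1 : ℂ)) ^ (2 * i + 1) = -1 by rw [pow_succ, pow_mul]; simp,
        neg_one_mul, u_succ, mul_sum]
      congr 1
      apply sum_congr rfl
      intro l _
      have : (2 * l < 2 * i + 1) ↔ l < i + 1 := by omega
      simp only [this]
      ring
    have hlast := u_last t r
    refine ⟨fun i hi => ?_, fun i hi => ?_⟩
    · rw [show 2 * (r + 1) = (2 * r + 1) + 1 by ring, v_succ,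
        show ((-1 : ℂ)) ^ (2 * i) = 1 by rw [pow_mul]; simp, one_mul,
        show 2 * r + 1 + 1 = 2 * (r + 1) by ring, sum_pairs]
      have : ∀ l ∈ range (r + 1), (if 2 * l < 2 * i then t else 1) * v t (2 * r + 1) (2 * l) +
          (if 2 * l + 1 < 2 * i then t else 1) * v t (2 * r + 1) (2 * l + 1) =
          (1 - t) ^ r * ((if l < i then t else 1) * (u t (r + 1) l - u t (r + 1) (l + 1))) := by
        intro l _
        rw [e1, e2]
        have h1 : (2 * l < 2 * i) ↔ l < i := by omega
        have h2 : (2 * l + 1 < 2 * i) ↔ l < i := by omega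
        simp only [h1, h2]
        ring
      rw [sum_congr rfl this, ← mul_sum, S1]
      rcases Nat.lt_or_ge i (r + 1) with h | h
      · rw [if_neg (by omega), hlast]; ring
      · obtain rfl : i = r + 1 := by omega
        rw [if_pos le_rfl, hlast]; ring
    · rw [show 2 * (r + 1) = (2 * r + 1) + 1 by ring, v_succ,
        show 2 * r + 1 + 1 = 2 * (r + 1) by ring, sum_pairs]
      have : ∀ l ∈ range (r + 1), (if 2 * l < 2 * i + 1 then t else 1) *
          v t (2 * r + 1) (2 * l) +
          (if 2 * l + 1 < 2 * i + 1 then t else 1) * v t (2 * r + 1) (2 * l + 1) =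
          (1 - t) ^ r * ((if l < i + 1 then t else 1) * u t (r + 1) l -
            (if l < i then t else 1) * u t (r + 1) (l + 1)) := by
        intro l _
        rw [e1, e2]
        have h1 : (2 * l < 2 * i + 1) ↔ l < i + 1 := by omega
        have h2 : (2 * l + 1 < 2 * i + 1) ↔ l < i := by omega
        simp only [h1, h2]
        ring
      rw [sum_congr rfl this, ← mul_sum, S2, if_neg (by omega), hlast]
      ring

lemma v_odd (t : ℂ) (r i : ℕ) :
    v t (2 * r + 1) (2 * i) = (1 - t) ^ r * u t (r + 1) i ∧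
    v t (2 * r + 1) (2 * i + 1) = -((1 - t) ^ r * u t (r + 1) (i + 1)) := by
  obtain ⟨ih1, ih2⟩ := v_closed t r
  have hsum : ∀ j, ∑ l ∈ range (2 * r + 1), (if l < j then t else 1) * v t (2 * r) l =
      ∑ i ∈ range (r + 1), (if 2 * i < j then t else 1) * ((1 - t) ^ r * u t r i) := by
    intro j
    rw [sum_range_succ, sum_pairs, sum_range_succ, ih1 r le_rfl]
    congr 1
    apply sum_congr rfl
    intro i hi
    have hi' : i < r := by simpa using hi
    rw [ih1 i hi'.le, ih2 i hi']
    ring
  constructor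
  · rw [v_succ, hsum, show ((-1 : ℂ)) ^ (2 * i) = 1 by rw [pow_mul]; simp, one_mul,
      u_succ, mul_sum]
    apply sum_congr rfl
    intro l _
    have : (2 * l < 2 * i) ↔ l < i := by omega
    simp only [this]
    ring
  · rw [v_succ, hsum, show ((-1 : ℂ)) ^ (2 * i + 1) = -1 by rw [pow_succ, pow_mul]; simp,
      neg_one_mul, u_succ, mul_sum]
    congr 1
    apply sum_congr rfl
    intro l _
    have : (2 * l < 2 * i + 1) ↔ l < i + 1 := by omega
    simp only [this]
    ring

/-- signed total, `2r+1` letters: the sum `v (2r+1) 0` -/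
lemma v_total_odd (t : ℂ) (r : ℕ) : v t (2 * r + 1) 0 = (1 - t) ^ r * u t (r + 1) 0 := by
  have := (v_odd t r 0).1
  simpa using this

/-- signed total, `2r+2` letters -/
lemma v_total_even (t : ℂ) (r : ℕ) : v t (2 * r + 2) 0 = (1 - t) ^ (r + 1) * u t (r + 1) 0 := by
  have := (v_closed t (r + 1)).1 0 (by omega)
  rw [show 2 * (r + 1) = 2 * r + 2 by ring] at this
  simpa using this

end Pool.Agent.H635R3.Comb
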