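import Pool.Agent.H635R3.RR

set_option autoImplicit false

open Polynomial

namespace Pool.Agent.H635R3.RR

/-- If all complex roots of `p` lie on the unit circle and `p` has degree `k`, then
`D^k p(D)` preserves the class `Good`. -/
theorem good_unit (k : ℕ) : ∀ p : ℝ[X], p.natDegree = k → p ≠ 0 →
    (∀ z : ℂ, aeval z p = 0 → ‖z‖ = 1) → ∀ F : ℝ[X], Good F →
    Good (aeval D (X ^ k * p) F) := by
  induction k using Nat.strong_induction_on with
  | _ k ih =>
    intro p hpk hp hroot F hF
    by_cases hk : k = 0
    · subst hk
      have hc := eq_C_of_natDegree_eq_zero hpk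
      rw [pow_zero, one_mul, hc, aeval_C]
      have hc0 : p.coeff 0 ≠ 0 := by
        intro h
        rw [h] at hc
        simp at hc
        exact hp hc
      have e : (algebraMap ℝ (Module.End ℝ ℝ[X]) (p.coeff 0)) F = C (p.coeff 0) * F := by
        simp [Module.algebraMap_end_apply, smul_eq_C_mul]
      rw [e]
      refine ⟨?_, ?_⟩
      · intro z hz
        rw [map_mul, aeval_C] at hz
        rcases mul_eq_zero.mp hz with h | h
        · exfalso
          apply hc0
          simpa using h
        · exact hF.1 z h
      · rw [natDegree_C_mul hc0]; exact hF.2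
    · -- take a complex root
      have hdeg : (p.map (algebraMap ℝ ℂ)).degree ≠ 0 := by
        rw [degree_map]
        intro h
        have := natDegree_eq_zero_iff_degree_le_zero.mpr h.le
        omega
      obtain ⟨w, hw⟩ := IsAlgClosed.exists_root _ hdeg
      have hw' : aeval w p = 0 := by
        rw [IsRoot, eval_map_algebraMap] at hw
        exact hw
      have hnorm := hroot w hw'
      by_cases him : w.im = 0
      · -- real root, equal to ±1
        have hwr : w = ((w.re : ℝ) : ℂ) := by
          apply Complex.ext <;> simp [him]
        have hre : w.re = 1 ∨ w.re = -1 := by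
          rw [hwr, Complex.norm_real, Real.norm_eq_abs] at hnorm
          exact (abs_eq (by norm_num)).mp hnorm
        have hroot' : p.IsRoot w.re := by
          rw [hwr] at hw'
          have : algebraMap ℝ ℂ (eval w.re p) = 0 := by
            rw [← aeval_algebraMap_apply_eq_algebraMap_eval]
            exact hw'
          simpa using this
        obtain ⟨q, hq⟩ := dvd_iff_isRoot.mpr hroot'
        have hq0 : q ≠ 0 := by rintro rfl; simp at hq; exact hp hq
        have hqd : q.natDegree = k - 1 := by
          have : p.natDegree = 1 + q.natDegree := by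
            rw [hq, natDegree_mul (X_sub_C_ne_zero _) hq0, natDegree_X_sub_C]
          omega
        have hqroot : ∀ z : ℂ, aeval z q = 0 → ‖z‖ = 1 := by
          intro z hz
          apply hroot
          rw [hq, map_mul, hz, mul_zero]
        have hG := ih (k - 1) (by omega) q hqd hq0 hqroot F hF
        have e1 : X ^ k * p = (X * (X - C w.re)) * (X ^ (k - 1) * q) := by
          rw [hq]
          have : (X : ℝ[X]) ^ k = X * X ^ (k - 1) := by
            rw [← pow_succ']; congr 1; omega
          rw [this]; ring
        rw [e1, map_mul, Module.End.mul_apply]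
        set G := aeval D (X ^ (k - 1) * q) F with hGdef
        rcases hre with h | h
        · rw [h]
          have : (aeval D (X * (X - C (1 : ℝ)))) G = D (D G - G) := by
            simp [map_mul, map_sub, aeval_X, Module.End.mul_apply, LinearMap.sub_apply]
          rw [this]
          exact good_DDm hG
        · rw [h]
          have : (aeval D (X * (X - C (-1 : ℝ)))) G = D (D G + G) := by
            simp [map_mul, map_sub, aeval_X, Module.End.mul_apply, LinearMap.sub_apply]
          rw [this]
          exact good_DDp hG
      · obtain ⟨q, hq⟩ := p.quadratic_dvd_of_aeval_eq_zero_im_ne_zero hw' him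
        rw [hnorm] at hq
        have hre : |w.re| ≤ 1 := by
          rw [← hnorm]; exact Complex.abs_re_le_norm w
        have hre' := abs_le.mp hre
        have hquad : (X ^ 2 - C (2 * w.re) * X + C (1 ^ 2) : ℝ[X]).natDegree = 2 := by
          compute_degree!
        have hquad0 : (X ^ 2 - C (2 * w.re) * X + C (1 ^ 2) : ℝ[X]) ≠ 0 := by
          intro h; rw [h] at hquad; simp at hquad
        have hq0 : q ≠ 0 := by rintro rfl; simp at hq; exact hp hq
        have hqd : k = 2 + q.natDegree := by
          rw [← hpk, hq, natDegree_mul hquad0 hq0, hquad]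
        have hqroot : ∀ z : ℂ, aeval z q = 0 → ‖z‖ = 1 := by
          intro z hz
          apply hroot
          rw [hq, map_mul, hz, mul_zero]
        have hG := ih (k - 2) (by omega) q (by omega) hq0 hqroot F hF
        have e1 : X ^ k * p = (X * (X * (X ^ 2 - C (2 * w.re) * X + C (1 ^ 2)))) *
            (X ^ (k - 2) * q) := by
          conv_lhs => rw [hq]
          have : (X : ℝ[X]) ^ k = X ^ 2 * X ^ (k - 2) := by
            rw [← pow_add]; congr 1; omega
          rw [this]; ring
        rw [e1, map_mul, Module.End.mul_apply]
        set G := aeval D (X ^ (k - 2) * q) F with hGdef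
        have : (aeval D (X * (X * (X ^ 2 - C (2 * w.re) * X + C (1 ^ 2))))) G =
            D (D (D (D G) - C (4 * ((1 + w.re) / 2) - 2) * D G + G)) := by
          have e2 : (4 * ((1 + w.re) / 2) - 2) = 2 * w.re := by ring
          rw [e2]
          simp only [map_mul, map_sub, map_add, aeval_X, aeval_C, map_pow,
            Module.End.mul_apply, LinearMap.sub_apply, LinearMap.add_apply, pow_two,
            Module.algebraMap_end_apply, smul_eq_C_mul, one_mul, map_one, one_smul,
            Module.End.one_apply, mul_assoc]
        rw [this]
        exact good_DD2 hG _ (by linarith) (by linarith)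

/-- `D^m (D^k + s) y` is real-rooted for `k ≤ m`, `s = ±1`. -/
theorem good_main (m k : ℕ) (hk : 1 ≤ k) (hmk : k ≤ m) (s : ℝ) (hs : s = 1 ∨ s = -1) :
    Good (aeval D (X ^ m * (X ^ k + C s)) X) := by
  have hX : Good (X : ℝ[X]) := by
    refine ⟨?_, by simp⟩
    intro z hz
    rw [aeval_X] at hz
    rw [hz]; simp
  have hd : (X ^ k + C s : ℝ[X]).natDegree = k := natDegree_X_pow_add_C
  have h0 : (X ^ k + C s : ℝ[X]) ≠ 0 := by
    intro h; rw [h] at hd; simp at hd; omega
  have hr : ∀ z : ℂ, aeval z (X ^ k + C s : ℝ[X]) = 0 → ‖z‖ = 1 := by
    intro z hz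
    simp only [map_add, map_pow, aeval_X, aeval_C] at hz
    have h1 : z ^ k = -(s : ℂ) := by linear_combination hz
    have h2 : ‖z‖ ^ k = 1 := by
      rw [← norm_pow, h1, norm_neg, Complex.norm_real]
      rcases hs with h | h <;> simp [h]
    exact (pow_eq_one_iff_of_nonneg (norm_nonneg z) (by omega)).mp h2
  have h1 := good_unit k _ hd h0 hr X hX
  have e : (X ^ m * (X ^ k + C s) : ℝ[X]) = X ^ (m - k) * (X ^ k * (X ^ k + C s)) := by
    rw [← mul_assoc, ← pow_add]; congr 2; omega
  rw [e, map_mul, Module.End.mul_apply]
  set G := aeval D (X ^ k * (X ^ k + C s)) (X : ℝ[X])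
  generalize m - k = r
  induction r with
  | zero => simpa using h1
  | succ r ih =>
    rw [pow_succ', map_mul, Module.End.mul_apply, aeval_X]
    exact good_D ih

end Pool.Agent.H635R3.RR
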