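import Pool.Agent.H635R3.Comb

set_option autoImplicit false

open Finset Equiv

namespace Pool.Agent.H635R3.PermSide

open Pool.Agent.H635R3.Comb

/-- number of descents -/
def des {n : ℕ} (π : Equiv.Perm (Fin (n + 1))) : ℕ :=
  ∑ i : Fin n, if π i.succ < π i.castSucc then 1 else 0

/-- insert the value `j` in front -/
def ins {n : ℕ} (p : Fin (n + 1) × Equiv.Perm (Fin n)) : Equiv.Perm (Fin (n + 1)) :=
  p.1.cycleRange.symm * Equiv.Perm.decomposeFin.symm (0, p.2)

lemma ins_zero {n : ℕ} (j : Fin (n + 1)) (e : Equiv.Perm (Fin n)) : ins (j, e) 0 = j := by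
  unfold ins
  rw [Equiv.Perm.mul_apply]
  simp

lemma ins_succ {n : ℕ} (j : Fin (n + 1)) (e : Equiv.Perm (Fin n)) (x : Fin n) :
    ins (j, e) x.succ = j.succAbove (e x) := by
  unfold ins
  rw [Equiv.Perm.mul_apply]
  simp

lemma ins_sign {n : ℕ} (j : Fin (n + 1)) (e : Equiv.Perm (Fin n)) :
    ((Equiv.Perm.sign (ins (j, e)) : ℤˣ) : ℤ) = (-1) ^ (j : ℕ) * ((Equiv.Perm.sign e : ℤˣ) : ℤ) := by
  unfold ins
  rw [Equiv.Perm.sign_mul, Equiv.Perm.sign_symm, Fin.sign_cycleRange,
    Equiv.Perm.decomposeFin.symm_sign]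
  simp

lemma ins_bij {n : ℕ} : Function.Bijective (ins (n := n)) := by
  rw [Fintype.bijective_iff_injective_and_card]
  constructor
  · rintro ⟨j, e⟩ ⟨j', e'⟩ h
    have h0 : j = j' := by rw [← ins_zero j e, h, ins_zero]
    subst h0
    unfold ins at h
    have h1 := mul_left_cancel h
    have h2 := Equiv.Perm.decomposeFin.symm.injective h1
    simpa using h2
  · exact Fintype.card_congr Equiv.Perm.decomposeFin.symm

lemma sum_ins {n : ℕ} (f : Equiv.Perm (Fin (n + 1)) → ℂ) :
    ∑ π, f π = ∑ j : Fin (n + 1), ∑ e : Equiv.Perm (Fin n), f (ins (j, e)) := by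
  rw [← Fintype.sum_prod_type']
  exact (Function.Bijective.sum_comp ins_bij f).symm

lemma des_ins {n : ℕ} (j : Fin (n + 2)) (e : Equiv.Perm (Fin (n + 1))) :
    des (ins (j, e)) = (if (e 0).val < j.val then 1 else 0) + des e := by
  unfold des
  rw [Fin.sum_univ_succ]
  congr 1
  · rw [Fin.castSucc_zero, ins_zero, ins_succ]
    have : j.succAbove (e 0) < j ↔ (e 0).val < j.val := by
      rw [Fin.succAbove_lt_iff_castSucc_lt]; rfl
    simp only [this]
  · apply Finset.sum_congr rfl
    intro i _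
    rw [ins_succ, ← Fin.succ_castSucc, ins_succ]
    simp only [Fin.succAbove_lt_succAbove_iff]

lemma pow_des_ins {n : ℕ} (t : ℂ) (j : Fin (n + 2)) (e : Equiv.Perm (Fin (n + 1))) :
    t ^ des (ins (j, e)) = (if (e 0).val < j.val then t else 1) * t ^ des e := by
  rw [des_ins, pow_add]
  split_ifs <;> simp

lemma T_eq (t : ℂ) (n : ℕ) : ∀ j : Fin (n + 1),
    ∑ e : Equiv.Perm (Fin n), t ^ des (ins (j, e)) = u t n j := by
  induction n with
  | zero =>
    intro j
    simp [des, u]
  | succ n ih =>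
    intro j
    simp only [pow_des_ins]
    rw [sum_ins, u_succ, ← Fin.sum_univ_eq_sum_range
      (fun i => (if i < (j : ℕ) then t else 1) * u t n i)]
    apply Finset.sum_congr rfl
    intro i _
    simp only [ins_zero]
    rw [← mul_sum, ih i]

lemma V_eq (t : ℂ) (n : ℕ) : ∀ j : Fin (n + 1),
    ∑ e : Equiv.Perm (Fin n), (((Equiv.Perm.sign (ins (j, e)) : ℤˣ) : ℤ) : ℂ) * t ^ des (ins (j, e))
      = if n = 0 then 1 else v t n j := by
  induction n with
  | zero =>
    intro j
    have hj : j = 0 := Fin.ext (by have := j.isLt; simp at this ⊢)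
    subst hj
    simp only [ins_sign]
    simp [des]
  | succ n ih =>
    intro j
    simp only [pow_des_ins, ins_sign]
    rw [if_neg (by omega), sum_ins, v_succ, ← Fin.sum_univ_eq_sum_range
      (fun i => (if i < (j : ℕ) then t else 1) * v t n i), mul_sum]
    apply Finset.sum_congr rfl
    intro i _
    simp only [ins_zero]
    have h := ih i
    have h' : (if n = 0 then (1 : ℂ) else v t n i) = v t n i := by
      split_ifs with h0
      · subst h0; rfl
      · rfl
    rw [h'] at h
    rw [← h, mul_sum, mul_sum]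
    apply Finset.sum_congr rfl
    intro e _
    push_cast
    ring

lemma total_u (t : ℂ) (n : ℕ) :
    ∑ π : Equiv.Perm (Fin (n + 1)), t ^ des π = u t (n + 1) 0 := by
  rw [sum_ins, u_succ, ← Fin.sum_univ_eq_sum_range
    (fun i => (if i < 0 then t else 1) * u t n i)]
  apply Finset.sum_congr rfl
  intro j _
  rw [T_eq]
  simp

lemma total_v (t : ℂ) (n : ℕ) :
    ∑ π : Equiv.Perm (Fin (n + 1)), (((Equiv.Perm.sign π : ℤˣ) : ℤ) : ℂ) * t ^ des π
      = v t (n + 1) 0 := by
  rw [sum_ins, v_succ, ← Fin.sum_univ_eq_sum_range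
    (fun i => (if i < 0 then t else 1) * v t n i)]
  rw [pow_zero, one_mul]
  apply Finset.sum_congr rfl
  intro j _
  rw [V_eq]
  have h' : (if n = 0 then (1 : ℂ) else v t n j) = v t n j := by
    split_ifs with h0
    · subst h0; rfl
    · rfl
  rw [h']
  simp

lemma card_eq_des {n : ℕ} (π : Equiv.Perm (Fin (n + 1))) :
    ((Finset.univ : Finset (Fin (n + 1) × Fin (n + 1))).filter
      (fun p => p.2.val = p.1.val + 1 ∧ π p.2 < π p.1)).card = des π := by
  unfold des
  rw [← Finset.card_filter]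
  symm
  apply Finset.card_bij (fun (i : Fin n) _ => (i.castSucc, i.succ))
  · intro i hi
    simp only [mem_filter, mem_univ, true_and] at hi ⊢
    exact ⟨by simp, hi⟩
  · intro i _ i' _ h
    have := congrArg Prod.fst h
    simpa using this
  · rintro ⟨a, b⟩ h
    simp only [mem_filter, mem_univ, true_and] at h
    obtain ⟨h1, h2⟩ := h
    have hlt : a.val < n := by
      have := b.isLt
      omega
    refine ⟨⟨a.val, hlt⟩, ?_, ?_⟩
    · have e1 : (⟨a.val, hlt⟩ : Fin n).castSucc = a := by ext; simp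
      have e2 : (⟨a.val, hlt⟩ : Fin n).succ = b := by ext; simp [h1]
      simp only [mem_filter, mem_univ, true_and]
      rw [e1, e2]
      exact h2
    · have e1 : (⟨a.val, hlt⟩ : Fin n).castSucc = a := by ext; simp
      have e2 : (⟨a.val, hlt⟩ : Fin n).succ = b := by ext; simp [h1]
      rw [e1, e2]

lemma frozen_eq {n : ℕ} (s : ℤˣ) (z : ℂ) :
    2 * Polynomial.aeval z
        (∑ π ∈ (Finset.univ : Finset (Equiv.Perm (Fin (n + 1)))).filter
              (fun π => Equiv.Perm.sign π = s),
          (Polynomial.X : Polynomial ℝ) ^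
            ((Finset.univ : Finset (Fin (n + 1) × Fin (n + 1))).filter
              (fun p => p.2.val = p.1.val + 1 ∧ π p.2 < π p.1)).card)
      = u z (n + 1) 0 + ((s : ℤ) : ℂ) * v z (n + 1) 0 := by
  rw [← total_u, ← total_v, map_sum, Finset.sum_filter, mul_sum, mul_sum, ← sum_add_distrib]
  apply Finset.sum_congr rfl
  intro π _
  rw [card_eq_des, map_pow, Polynomial.aeval_X]
  rcases Int.units_eq_one_or s with hs | hs <;>
    rcases Int.units_eq_one_or (Equiv.Perm.sign π) with hp | hp <;>
    simp only [hs, hp] <;> simp <;> ring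

end Pool.Agent.H635R3.PermSide
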