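import Mathlib

set_option autoImplicit false

open Polynomial

namespace Pool.Agent.H635R3.RR

/-- no zero in the open upper half plane -/
def Stb (P : ℂ[X]) : Prop := ∀ z : ℂ, 0 < z.im → P.eval z ≠ 0

lemma Stb.mul {P Q : ℂ[X]} (hP : Stb P) (hQ : Stb Q) : Stb (P * Q) := by
  intro z hz
  rw [eval_mul]
  exact mul_ne_zero (hP z hz) (hQ z hz)

lemma Stb.ne_zero {P : ℂ[X]} (hP : Stb P) : P ≠ 0 := by
  rintro rfl
  exact hP Complex.I (by simp) (by simp)

lemma Stb.derivative {P : ℂ[X]} (hP : Stb P) (hd : 1 ≤ P.natDegree) : Stb (derivative P) := by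
  intro z hz h0
  have hdeg : 0 < P.degree := natDegree_pos_iff_degree_pos.mp hd
  have hne : Polynomial.derivative P ≠ 0 := by
    intro h
    have := Polynomial.natDegree_eq_zero_of_derivative_eq_zero h
    omega
  have h1 := Polynomial.rootSet_derivative_subset_convexHull_rootSet hdeg
  have h2 : z ∈ (Polynomial.derivative P).rootSet ℂ := by
    rw [mem_rootSet]
    exact ⟨hne, by simpa [aeval_def, eval₂_eq_eval_map] using h0⟩
  have h3 := h1 h2
  have h4 : P.rootSet ℂ ⊆ {w : ℂ | w.im ≤ 0} := by
    intro w hw
    rw [mem_rootSet] at hw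
    by_contra hcon
    have hcon' : 0 < w.im := by simpa using hcon
    exact hP w hcon' (by simpa [aeval_def, eval₂_eq_eval_map] using hw.2)
  have h5 : Convex ℝ {w : ℂ | w.im ≤ 0} := by
    exact convex_halfSpace_im_le 0
  have h6 := convexHull_min h4 h5 h3
  have : z.im ≤ 0 := h6
  linarith

lemma natDegree_der {P : ℂ[X]} (hd : 1 ≤ P.natDegree) :
    (derivative P).natDegree = P.natDegree - 1 := by
  have h := Polynomial.degree_derivative_eq P (by omega)
  exact natDegree_eq_of_degree_eq_some h

lemma stb_X : Stb (X : ℂ[X]) := by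
  intro z hz h
  simp at h
  simp [h] at hz

lemma stb_X1 : Stb (X - 1 : ℂ[X]) := by
  intro z hz h
  simp at h
  have : z = 1 := by linear_combination h
  simp [this] at hz

/-- the operator `M = ∂² y²(y-1)² ∂²` -/
noncomputable def M (L : ℂ[X]) : ℂ[X] :=
  derivative (derivative ((X ^ 2 * (X - 1) ^ 2) * derivative (derivative L)))

lemma stb_M {L : ℂ[X]} (hL : Stb L) (hd : 2 ≤ L.natDegree) : Stb (M L) := by
  unfold M
  have h1 := hL.derivative (by omega)
  have d1 := natDegree_der (P := L) (by omega)
  have h2 := h1.derivative (by omega)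
  have d2 := natDegree_der (P := derivative L) (by omega)
  have hq : Stb (X ^ 2 * (X - 1) ^ 2 : ℂ[X]) := by
    rw [pow_two, pow_two]
    exact (stb_X.mul stb_X).mul (stb_X1.mul stb_X1)
  have h3 := hq.mul h2
  have d3 : ((X ^ 2 * (X - 1) ^ 2 : ℂ[X]) * derivative (derivative L)).natDegree
      = 4 + (derivative (derivative L)).natDegree := by
    rw [natDegree_mul hq.ne_zero h2.ne_zero]
    congr 1
    have : (X - 1 : ℂ[X]) = X - C 1 := by simp
    rw [natDegree_mul (by simp) (by rw [this]; exact pow_ne_zero _ (X_sub_C_ne_zero 1)),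
      natDegree_pow, natDegree_pow, natDegree_X, this, natDegree_X_sub_C]
  have h4 := h3.derivative (by omega)
  have d4 := natDegree_der (P := (X ^ 2 * (X - 1) ^ 2 : ℂ[X]) * derivative (derivative L))
    (by omega)
  exact h4.derivative (by omega)

lemma M_add (L K : ℂ[X]) : M (L + K) = M L + M K := by
  unfold M
  simp [mul_add]

lemma M_C_mul (a : ℂ) (L : ℂ[X]) : M (C a * L) = C a * M L := by
  unfold M
  rw [derivative_C_mul, derivative_C_mul]
  have : (X ^ 2 * (X - 1) ^ 2 : ℂ[X]) * (C a * derivative (derivative L))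
      = C a * ((X ^ 2 * (X - 1) ^ 2 : ℂ[X]) * derivative (derivative L)) := by ring
  rw [this, derivative_C_mul, derivative_C_mul]

/-- all complex roots are real (in particular the polynomial is not zero) -/
def RR (F : ℝ[X]) : Prop := ∀ z : ℂ, aeval z F = 0 → z.im = 0

/-- real-rooted and not constant -/
def Good (F : ℝ[X]) : Prop := RR F ∧ 1 ≤ F.natDegree

lemma RR.ne_zero {F : ℝ[X]} (h : RR F) : F ≠ 0 := by
  rintro rfl
  have := h Complex.I (by simp)
  simp at this

lemma RR.of_upper {F : ℝ[X]} (h : ∀ z : ℂ, 0 < z.im → aeval z F ≠ 0) : RR F := by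
  intro z hz
  by_contra hne
  rcases lt_or_gt_of_ne hne with h1 | h1
  · refine h ((starRingEnd ℂ) z) (by simpa using h1) ?_
    rw [Polynomial.aeval_conj, hz, map_zero]
  · exact h z h1 hz

lemma RR.stb {F : ℝ[X]} (h : RR F) : Stb (F.map (algebraMap ℝ ℂ)) := by
  intro z hz h0
  have : aeval z F = 0 := by rwa [eval_map_algebraMap] at h0
  have := h z this
  linarith

/-- the operator `D = y (y-1) d/dy` -/
noncomputable def D : Module.End ℝ ℝ[X] :=
  (LinearMap.mulLeft ℝ (X * (X - 1) : ℝ[X])) ∘ₗ (derivative : ℝ[X] →ₗ[ℝ] ℝ[X])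

lemma D_apply (F : ℝ[X]) : D F = X * (X - 1) * derivative F := rfl

lemma good_of_mul {G : ℝ[X]} (hG : ∀ z : ℂ, 0 < z.im → aeval z G ≠ 0) :
    Good (X * (X - 1) * G) := by
  have hG0 : G ≠ 0 := (RR.of_upper hG).ne_zero
  constructor
  · apply RR.of_upper
    intro z hz
    rw [map_mul, map_mul]
    refine mul_ne_zero (mul_ne_zero ?_ ?_) (hG z hz)
    · simp only [aeval_X]; rintro rfl; simp at hz
    · simp only [map_sub, aeval_X, map_one]
      intro h
      have : z = 1 := by linear_combination h
      simp [this] at hz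
  · have h1 : (X - 1 : ℝ[X]) = X - C 1 := by simp
    rw [natDegree_mul (mul_ne_zero X_ne_zero (by rw [h1]; exact X_sub_C_ne_zero 1)) hG0,
      natDegree_mul X_ne_zero (by rw [h1]; exact X_sub_C_ne_zero 1), natDegree_X, h1,
      natDegree_X_sub_C]
    omega

lemma natDegree_map' (F : ℝ[X]) : (F.map (algebraMap ℝ ℂ)).natDegree = F.natDegree :=
  natDegree_map_eq_of_injective (algebraMap ℝ ℂ).injective F

lemma good_D {F : ℝ[X]} (hF : Good F) : Good (D F) := by
  rw [D_apply]
  apply good_of_mul
  intro z hz h
  have h1 := hF.1.stb.derivative (by rw [natDegree_map']; exact hF.2) z hz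
  apply h1
  rw [← eval_map_algebraMap] at h
  rw [derivative_map]
  exact h

lemma aux_second {L : ℝ[X]} (hL : RR L) (hd : 2 ≤ L.natDegree) (z : ℂ) (hz : 0 < z.im) :
    aeval z (derivative (derivative L)) ≠ 0 := by
  have h1 := hL.stb.derivative (by rw [natDegree_map']; omega)
  have h2 := h1.derivative (by rw [derivative_map, natDegree_map']; 
                               have := Polynomial.degree_derivative_eq L (by omega)
                               rw [natDegree_eq_of_degree_eq_some this]; omega)
  have := h2 z hz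
  rwa [derivative_map, derivative_map, eval_map_algebraMap] at this

lemma rr_mul_X {F : ℝ[X]} (hF : RR F) : RR (X * F) := by
  apply RR.of_upper
  intro z hz h
  rw [map_mul, aeval_X] at h
  rcases mul_eq_zero.mp h with h | h
  · simp [h] at hz
  · have := hF z h; linarith

lemma rr_mul_X1 {F : ℝ[X]} (hF : RR F) : RR ((X - 1) * F) := by
  apply RR.of_upper
  intro z hz h
  rw [map_mul, map_sub, aeval_X, map_one] at h
  rcases mul_eq_zero.mp h with h | h
  · have : z = 1 := by linear_combination h
    simp [this] at hz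
  · have := hF z h; linarith

lemma natDegree_X_mul' {F : ℝ[X]} (hF : F ≠ 0) : (X * F).natDegree = F.natDegree + 1 := by
  rw [natDegree_mul X_ne_zero hF, natDegree_X]; ring

lemma natDegree_X1_mul {F : ℝ[X]} (hF : F ≠ 0) : ((X - 1) * F).natDegree = F.natDegree + 1 := by
  have h1 : (X - 1 : ℝ[X]) = X - C 1 := by simp
  rw [natDegree_mul (by rw [h1]; exact X_sub_C_ne_zero 1) hF, h1, natDegree_X_sub_C]; ring

/-- `D (D - 1)` preserves the class -/
lemma good_DDm {F : ℝ[X]} (hF : Good F) : Good (D (D F - F)) := by
  have e : D (D F - F) = X * (X - 1) * ((X - 1) * derivative (derivative (X * F))) := by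
    simp only [D_apply, derivative_mul, derivative_X, derivative_one,
      derivative_add, map_sub, derivative_zero]
    ring
  rw [e]
  apply good_of_mul
  intro z hz h
  rw [map_mul] at h
  rcases mul_eq_zero.mp h with h | h
  · rw [map_sub, aeval_X, map_one] at h
    have : z = 1 := by linear_combination h
    simp [this] at hz
  · exact aux_second (rr_mul_X hF.1) (by rw [natDegree_X_mul' hF.1.ne_zero]; have := hF.2; omega)
      z hz h

/-- `D (D + 1)` preserves the class -/
lemma good_DDp {F : ℝ[X]} (hF : Good F) : Good (D (D F + F)) := by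
  have e : D (D F + F) = X * (X - 1) * (X * derivative (derivative ((X - 1) * F))) := by
    simp only [D_apply, derivative_mul, derivative_X, derivative_one,
      derivative_add, map_sub, derivative_zero]
    ring
  rw [e]
  apply good_of_mul
  intro z hz h
  rw [map_mul] at h
  rcases mul_eq_zero.mp h with h | h
  · rw [aeval_X] at h
    simp [h] at hz
  · exact aux_second (rr_mul_X1 hF.1) (by rw [natDegree_X1_mul hF.1.ne_zero]; have := hF.2; omega)
      z hz h

/-- `D² (D² - 2cD + 1)`, `c = 2α-1`, preserves the class -/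
lemma good_DD2 {F : ℝ[X]} (hF : Good F) (α : ℝ) (h0 : 0 ≤ α) (h1 : α ≤ 1) :
    Good (D (D (D (D F) - C (4 * α - 2) * D F + F))) := by
  set A : ℝ[X] := derivative (derivative ((X ^ 2 * (X - 1) ^ 2) *
    derivative (derivative ((X - 1) * F)))) with hA
  set B : ℝ[X] := derivative (derivative ((X ^ 2 * (X - 1) ^ 2) *
    derivative (derivative (X * F)))) with hB
  have e : D (D (D (D F) - C (4 * α - 2) * D F + F)) =
      X * (X - 1) * (C α * (X - 1) * B + (1 - C α) * X * A) := by
    have e1 : (C (4 * α - 2) : ℝ[X]) = 4 * C α - 2 := by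
      simp [map_ofNat]
    rw [e1, hA, hB]
    simp only [D_apply, derivative_sub, derivative_mul, derivative_X, derivative_one,
      derivative_add, derivative_C, derivative_pow, derivative_ofNat, derivative_zero, C_1,
      Nat.cast_ofNat, Nat.add_one_sub_one, C_ofNat, pow_one, map_one, map_ofNat]
    ring
  rw [e]
  apply good_of_mul
  intro z hz
  have hz0 : z ≠ 0 := by rintro rfl; simp at hz
  have hz1 : z - 1 ≠ 0 := by
    intro h
    have : z = 1 := by linear_combination h
    simp [this] at hz
  set Fc := F.map (algebraMap ℝ ℂ) with hFc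
  have hFs : Stb Fc := hF.1.stb
  have hFd : 1 ≤ Fc.natDegree := by rw [hFc, natDegree_map']; exact hF.2
  have key : ∀ l : ℂ, (0 < l.im ∨ l = 0) → (M (((C (1 + l)) * X - 1) * Fc)).eval z ≠ 0 := by
    intro l hl
    have hl1 : (1 + l) ≠ 0 := by
      rcases hl with hl | hl
      · intro h
        have := congrArg Complex.im h
        simp at this
        linarith
      · rw [hl]; simp
    have hlin : Stb (C (1 + l) * X - 1) := by
      intro w hw h
      simp only [eval_sub, eval_mul, eval_C, eval_X, eval_one] at h
      have hw1 : (1 + l) * w = 1 := by linear_combination h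
      rcases hl with hl | hl
      · have hw2 : w = (1 + l)⁻¹ := by
          field_simp
          linear_combination hw1
        rw [hw2, Complex.inv_im] at hw
        simp only [Complex.add_im, Complex.one_im, zero_add] at hw
        have : 0 < Complex.normSq (1 + l) := Complex.normSq_pos.mpr hl1
        have h3 : -l.im / Complex.normSq (1 + l) < 0 :=
          div_neg_of_neg_of_pos (by linarith) this
        linarith
      · rw [hl] at hw1
        simp at hw1
        simp [hw1] at hw
    have hdeg : ((C (1 + l) * X - 1 : ℂ[X]) * Fc).natDegree = Fc.natDegree + 1 := by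
      rw [natDegree_mul hlin.ne_zero hFs.ne_zero]
      have : (C (1 + l) * X - 1 : ℂ[X]) = C (1 + l) * X + C (-1) := by simp [sub_eq_add_neg]
      rw [this, natDegree_linear hl1]
      ring
    exact stb_M (hlin.mul hFs) (by omega) z hz
  have hBne : (M (X * Fc)).eval z ≠ 0 := by
    apply stb_M (stb_X.mul hFs)
    · rw [natDegree_mul X_ne_zero hFs.ne_zero, natDegree_X]; omega
    · exact hz
  have hAe : aeval z A = (M ((X - 1) * Fc)).eval z := by
    rw [hA, ← eval_map_algebraMap]
    unfold M
    simp [← derivative_map, hFc]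
  have hBe : aeval z B = (M (X * Fc)).eval z := by
    rw [hB, ← eval_map_algebraMap]
    unfold M
    simp [← derivative_map, hFc]
  have hcomb : ∀ l : ℂ, (M (((C (1 + l)) * X - 1) * Fc)).eval z =
      (M ((X - 1) * Fc)).eval z + l * (M (X * Fc)).eval z := by
    intro l
    have : ((C (1 + l)) * X - 1) * Fc = (X - 1) * Fc + C l * (X * Fc) := by
      rw [C_add, C_1]; ring
    rw [this, M_add, M_C_mul, eval_add, eval_mul, eval_C]
  intro hcon
  simp only [map_add, map_mul, map_sub, aeval_C, aeval_X, map_one, hAe, hBe] at hcon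
  set a := (M ((X - 1) * Fc)).eval z with ha
  set b := (M (X * Fc)).eval z with hb
  have hcon' : (α : ℂ) * (z - 1) * b + (1 - (α : ℂ)) * z * a = 0 := hcon
  rcases eq_or_lt_of_le h1 with h1 | h1
  · rw [h1] at hcon'
    simp at hcon'
    rcases hcon' with h | h
    · exact hz1 h
    · exact hBne h
  · have hα : (1 - (α : ℂ)) ≠ 0 := by
      have : ((1 - α : ℝ) : ℂ) ≠ 0 := by
        rw [Ne, Complex.ofReal_eq_zero]; linarith
      simpa using this
    set l : ℂ := ((α / (1 - α) : ℝ) : ℂ) * (1 - z⁻¹) with hl
    have hlim : 0 < l.im ∨ l = 0 := by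
      rcases eq_or_lt_of_le h0 with h0 | h0
      · right
        rw [hl, ← h0]; simp
      · left
        rw [hl, Complex.im_ofReal_mul]
        simp only [Complex.sub_im, Complex.one_im, Complex.inv_im, zero_sub]
        have h2 : 0 < Complex.normSq z := Complex.normSq_pos.mpr hz0
        have h3 : 0 < α / (1 - α) := div_pos h0 (by linarith)
        have h4 : 0 < z.im / Complex.normSq z := div_pos hz h2
        have h5 : -(-z.im / Complex.normSq z) = z.im / Complex.normSq z := by ring
        rw [h5]
        exact mul_pos h3 h4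
    apply key l hlim
    rw [hcomb l]
    have hl2 : l = (α : ℂ) * (z - 1) / ((1 - α) * z) := by
      rw [hl]
      push_cast
      field_simp
    rw [hl2]
    have : ((1 - (α : ℂ)) * z) ≠ 0 := mul_ne_zero hα hz0
    field_simp
    linear_combination hcon'

end Pool.Agent.H635R3.RR
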